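import Mathlib
import Pool.Agent.Y163.MW.Base

/-!
# Job MW-E: the zero law for sums of integers
-/

set_option autoImplicit false

open Module Filter Topology MeasureTheory

namespace Pool.Agent.Y246.MW

open Pool.Agent.Y163.MW

/-- The integral of a character of the circle. -/
theorem int_exp (m : ℤ) : ∫ t in (0 : ℝ)..(2 * Real.pi), Complex.exp (((m : ℂ) * Complex.I) * t) =
    if m = 0 then 2 * (Real.pi : ℂ) else 0 := by
  split_ifs with h
  · subst h; simp
  · rw [integral_exp_mul_complex]
    · have h1 : (m : ℂ) * Complex.I * ((2 * Real.pi : ℝ) : ℂ) =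
          m * (2 * Real.pi * Complex.I) := by push_cast; ring
      rw [h1, Complex.exp_int_mul_two_pi_mul_I]
      simp
    · simp [h]

/-- The power of the exponential sum. -/
theorem pow_sum {ι : Type} [Fintype ι] (δ : ι → ℤ) (n : ℕ) (t : ℝ) :
    (∑ i, Complex.exp (((δ i : ℂ) * Complex.I) * t)) ^ n =
      ∑ g : Fin n → ι, Complex.exp ((((∑ k, δ (g k) : ℤ) : ℂ) * Complex.I) * t) := by
  classical
  have h := (Finset.prod_univ_sum (fun _ : Fin n => (Finset.univ : Finset ι))
    (fun _ i => Complex.exp (((δ i : ℂ) * Complex.I) * t)))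
  rw [Finset.prod_const, Finset.card_univ, Fintype.card_fin, Fintype.piFinset_univ] at h
  rw [h]
  refine Finset.sum_congr rfl fun g _ => ?_
  rw [← Complex.exp_sum]
  congr 1
  push_cast
  rw [Finset.sum_mul, Finset.sum_mul]

/-- The counting function as an integral. -/
theorem count_eq {ι : Type} [Fintype ι] (δ : ι → ℤ) (n : ℕ) :
    ∫ t in (0 : ℝ)..(2 * Real.pi), (∑ i, Complex.exp (((δ i : ℂ) * Complex.I) * t)) ^ n =
      2 * (Real.pi : ℂ) * (Nat.card {g : Fin n → ι // ∑ k, δ (g k) = 0} : ℂ) := by
  classical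
  simp_rw [pow_sum]
  rw [intervalIntegral.integral_finsetSum]
  · simp_rw [int_exp]
    rw [Finset.sum_ite, Finset.sum_const, Finset.sum_const_zero, add_zero, nsmul_eq_mul, mul_comm,
      Nat.card_eq_fintype_card, Fintype.card_subtype]
  · intro g _
    apply Continuous.intervalIntegrable
    fun_prop

theorem norm_one (m : ℤ) (t : ℝ) : ‖Complex.exp (((m : ℂ) * Complex.I) * t)‖ = 1 := by
  have : ((m : ℂ) * Complex.I) * t = ((m * t : ℝ) : ℂ) * Complex.I := by push_cast; ring
  rw [this, Complex.norm_exp_ofReal_mul_I]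

/-- The exponential sum is bounded by the number of its terms. -/
theorem norm_le {ι : Type} [Fintype ι] (δ : ι → ℤ) (t : ℝ) :
    ‖∑ i, Complex.exp (((δ i : ℂ) * Complex.I) * t)‖ ≤ Fintype.card ι := by
  refine (norm_sum_le _ _).trans ?_
  simp [norm_one]

/-- The exponential sum is smaller than the number of its terms when two terms are different. -/
theorem norm_lt {ι : Type} [Fintype ι] (δ : ι → ℤ) (t : ℝ) (i j : ι)
    (h : Complex.exp (((δ i : ℂ) * Complex.I) * t) ≠ Complex.exp (((δ j : ℂ) * Complex.I) * t)) :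
    ‖∑ i, Complex.exp (((δ i : ℂ) * Complex.I) * t)‖ < Fintype.card ι := by
  classical
  have hij : i ≠ j := fun e => h (by rw [e])
  set z : ι → ℂ := fun i => Complex.exp (((δ i : ℂ) * Complex.I) * t) with hz
  have hn : ∀ k, ‖z k‖ = 1 := fun k => norm_one (δ k) t
  have h2 : ‖z i + z j‖ < 2 := by
    have h3 : ¬ SameRay ℝ (z i) (z j) := by
      rw [sameRay_iff_of_norm_eq (by rw [hn, hn])]
      exact h
    have h4 := norm_add_lt_of_not_sameRay h3
    rw [hn, hn] at h4
    linarith
  have hs : ∑ k, z k = (z i + z j) + ∑ k ∈ (Finset.univ.erase i).erase j, z k := by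
    rw [← Finset.add_sum_erase _ _ (Finset.mem_univ i),
      ← Finset.add_sum_erase (Finset.univ.erase i) z (Finset.mem_erase.2 ⟨hij.symm, Finset.mem_univ j⟩)]
    ring
  have hc : ((Finset.univ.erase i).erase j).card + 2 = Fintype.card ι := by
    rw [← Finset.card_univ, ← Finset.card_erase_add_one (Finset.mem_univ i),
      ← Finset.card_erase_add_one (Finset.mem_erase.2 ⟨hij.symm, Finset.mem_univ j⟩)]
  rw [hs]
  have h5 : ‖∑ k ∈ (Finset.univ.erase i).erase j, z k‖ ≤ ((Finset.univ.erase i).erase j).card := by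
    refine (norm_sum_le _ _).trans ?_
    simp [hn]
  have h6 := norm_add_le (z i + z j) (∑ k ∈ (Finset.univ.erase i).erase j, z k)
  have h7 : ((((Finset.univ.erase i).erase j).card : ℕ) : ℝ) + 2 = Fintype.card ι := by
    exact_mod_cast hc
  linarith

/-- The exceptional set is a null set. -/
theorem ae_ne (m m' : ℤ) (h : m ≠ m') : ∀ᵐ t : ℝ,
    Complex.exp (((m : ℂ) * Complex.I) * t) ≠ Complex.exp (((m' : ℂ) * Complex.I) * t) := by
  have hc : (Set.range (fun k : ℤ => (k : ℝ) * (2 * Real.pi) / ((m : ℝ) - m'))).Countable :=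
    Set.countable_range _
  filter_upwards [hc.ae_notMem volume] with t ht he
  apply ht
  rw [Complex.exp_eq_exp_iff_exists_int] at he
  obtain ⟨k, hk⟩ := he
  refine ⟨k, ?_⟩
  have h1 : ((m : ℂ) - m') * t = k * (2 * Real.pi) := by
    have h2 : (((m : ℂ) - m') * t - k * (2 * Real.pi)) * Complex.I = 0 := by
      linear_combination hk
    rcases mul_eq_zero.1 h2 with h3 | h3
    · linear_combination h3
    · exact absurd h3 Complex.I_ne_zero
  have h4 : ((m : ℝ) - m') * t = k * (2 * Real.pi) := by exact_mod_cast h1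
  have h5 : ((m : ℝ) - m') ≠ 0 := by
    rw [sub_ne_zero]; exact_mod_cast h
  field_simp
  linarith

/-- Job MW-E. -/
theorem stE : StE := by
  intro ι _ δ ⟨i₀, hi₀⟩
  classical
  by_cases hd : ∃ i j, δ i ≠ δ j
  · obtain ⟨i, j, hij⟩ := hd
    have hb : (0 : ℝ) < Fintype.card ι := by
      have : Nonempty ι := ⟨i⟩
      exact_mod_cast Fintype.card_pos
    set φ : ℝ → ℂ := fun t => (∑ i, Complex.exp (((δ i : ℂ) * Complex.I) * t)) / Fintype.card ι
      with hφ
    have hle : ∀ t, ‖φ t‖ ≤ 1 := fun t => by
      rw [hφ]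
      simp only [norm_div, Complex.norm_natCast]
      rw [div_le_one hb]
      exact norm_le δ t
    have hlim : Tendsto (fun n : ℕ => ∫ t in (0 : ℝ)..(2 * Real.pi), φ t ^ (n + 1)) atTop
        (𝓝 (∫ t in (0 : ℝ)..(2 * Real.pi), (0 : ℂ))) := by
      apply intervalIntegral.tendsto_integral_filter_of_dominated_convergence (fun _ => (1 : ℝ))
      · refine Eventually.of_forall fun n => ?_
        apply Continuous.aestronglyMeasurable
        rw [hφ]
        fun_prop
      · refine Eventually.of_forall fun n => Eventually.of_forall fun t _ => ?_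
        rw [norm_pow]
        exact pow_le_one₀ (norm_nonneg _) (hle t)
      · exact intervalIntegrable_const
      · filter_upwards [ae_ne (δ i) (δ j) hij] with t ht _
        have h1 : ‖φ t‖ < 1 := by
          rw [hφ]
          simp only [norm_div, Complex.norm_natCast]
          rw [div_lt_one hb]
          exact norm_lt δ t i j ht
        exact (tendsto_pow_atTop_nhds_zero_of_norm_lt_one h1).comp (tendsto_add_atTop_nat 1)
    have heq : ∀ n : ℕ, ((Nat.card {g : Fin (n + 1) → ι // ∑ k, δ (g k) = 0} : ℝ) /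
        (Fintype.card ι : ℝ) ^ (n + 1)) =
        (2 * Real.pi)⁻¹ * ‖∫ t in (0 : ℝ)..(2 * Real.pi), φ t ^ (n + 1)‖ := by
      intro n
      have h1 : ∫ t in (0 : ℝ)..(2 * Real.pi), φ t ^ (n + 1) =
          ((Fintype.card ι : ℂ) ^ (n + 1))⁻¹ *
            (2 * (Real.pi : ℂ) * (Nat.card {g : Fin (n + 1) → ι // ∑ k, δ (g k) = 0} : ℂ)) := by
        rw [← count_eq, ← intervalIntegral.integral_const_mul]
        congr 1
        ext t
        rw [hφ]
        simp only [div_pow]
        ring
      rw [h1, norm_mul, norm_mul, norm_inv, norm_pow, norm_mul, Complex.norm_natCast,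
        Complex.norm_natCast, Complex.norm_real, Real.norm_eq_abs, abs_of_pos Real.pi_pos,
        Complex.norm_ofNat]
      have := Real.pi_pos
      field_simp
    simp_rw [heq]
    rw [intervalIntegral.integral_zero] at hlim
    have h3 := (hlim.norm).const_mul (2 * Real.pi)⁻¹
    simpa using h3
  · push Not at hd
    have h0 : ∀ n : ℕ, Nat.card {g : Fin (n + 1) → ι // ∑ k, δ (g k) = 0} = 0 := by
      intro n
      have : IsEmpty {g : Fin (n + 1) → ι // ∑ k, δ (g k) = 0} := by
        constructor
        rintro ⟨g, hg⟩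
        have h1 : ∀ k, δ (g k) = δ i₀ := fun k => hd _ _
        simp only [h1, Finset.sum_const, Finset.card_univ, Fintype.card_fin, nsmul_eq_mul,
          mul_eq_zero] at hg
        rcases hg with hg | hg
        · exact absurd hg (by positivity)
        · exact hi₀ hg
      exact Nat.card_of_isEmpty
    simp_rw [h0]
    simp

end Pool.Agent.Y246.MW
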